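import Pool.Agent.Results.MP_ca0a54_nt.AlmostAllIntervals
import Pool.Agent.V11001.AE.Windows

/-!
# Small gaps of zeta zeros in every short interval near the powers of almost every real number

Unconditionally, let `ν n ≥ n ^ d` for large `n`, `d > 0`, for example `ν n = n`. (1) For every `A` there is `K` such that
for `c > 2 / 3` and almost all `x > 1`, with `T = x ^ (ν n)`, `n` large, EVERY interval `[a, b]` of length at least
`(log T) ^ K` in `[T - (log T) ^ (K + A), T + (log T) ^ (K + A)]` contains two consecutive ordinates at a distance less than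
`c` times the mean spacing `2 π / log T`. (2) For `0 < θ < 1` and `c > 2 / (3 + θ)` every interval of length at least
`T ^ θ` in `[T - T ^ θ (log T) ^ A, T + T ^ θ (log T) ^ A]` does. For arbitrary intervals of these lengths this is known with
the constants `1` and `2 / (2 + θ)` only.
-/

set_option autoImplicit false
set_option maxHeartbeats 4000000

open Filter MeasureTheory Set Topology

namespace Pool.Agent.Results.MP_ca0a54_nt.GapsNearPowers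

open AlmostAllIntervals (ord gb)
open Pool.Agent.V11001.AE

/-- `[a, b]` contains two consecutive ordinates at a distance less than `c (2 π / log T)` -/
def SmallGap (c T a b : ℝ) : Prop :=
  ∃ m : ℕ, 1 ≤ m ∧ a ≤ ord m ∧ ord m ≤ ord (m + 1) ∧ ord (m + 1) ≤ b ∧
    ord (m + 1) - ord m < c * (2 * Real.pi / Real.log T)

/-- the bound of the starting theorem -/
lemma gb_lt {lam c C : ℝ} (hlam : 0 < lam) (hc : 2 < c * lam) (hC : 0 ≤ C) : ∃ i₂ : ℕ, ∀ i : ℕ, i₂ ≤ i →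
    ∀ H T : ℝ, 0 < H → ((2 : ℝ) ^ i) ^ lam / 2 ≤ ((2 : ℝ) ^ i) ^ 3 * H → (2 : ℝ) ^ i ≤ T → T ≤ 2 * 2 ^ i →
      gb C H (2 ^ i) < c * (2 * Real.pi / Real.log T) := by
  have hpi := Real.pi_pos
  have hc0 : 0 < c := by
    by_contra hcon
    rw [not_lt] at hcon
    have := mul_nonpos_of_nonpos_of_nonneg hcon hlam.le
    linarith
  -- the limit
  have l0 : Tendsto (fun y : ℝ => Real.log y / y) atTop (𝓝 0) := by
    have := Real.isLittleO_log_id_atTop.tendsto_div_nhds_zero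
    exact this
  have l1 : Tendsto (fun y : ℝ => 1 / y) atTop (𝓝 0) := by
    simpa using tendsto_inv_atTop_zero (𝕜 := ℝ)
  have l2 : Tendsto (fun y : ℝ => 2 * (1 + C * (Real.log y / y)) * (1 + 1 / y)) atTop (𝓝 (2 * (1 + C * 0) * (1 + 0))) :=
    (((l0.const_mul C).const_add 1).const_mul 2).mul (l1.const_add 1)
  have l3 : Tendsto (fun y : ℝ => c * (lam - 1 / y)) atTop (𝓝 (c * (lam - 0))) := (l1.const_sub lam).const_mul c
  have hlt : 2 * (1 + C * 0) * (1 + 0) < c * (lam - 0) := by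
    simp only [mul_zero, add_zero, mul_one, sub_zero]
    exact hc
  have e1 := l2.eventually_lt l3 hlt
  have e2 : ∀ᶠ y : ℝ in atTop, 1 < lam * y := (tendsto_id.const_mul_atTop hlam).eventually_gt_atTop 1
  have hlim : Tendsto (fun i : ℕ => Real.log ((2 : ℝ) ^ i)) atTop atTop :=
    Real.tendsto_log_atTop.comp (tendsto_pow_atTop_atTop_of_one_lt (by norm_num))
  obtain ⟨i₂, hi₂⟩ := (hlim.eventually (e1.and (e2.and (eventually_ge_atTop 1)))).exists_forall_of_atTop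
  refine ⟨i₂, fun i hi H T hH hPH hT1 hT2 => ?_⟩
  obtain ⟨g1, g2, g3⟩ := hi₂ i hi
  set P : ℝ := (2 : ℝ) ^ i with hP
  have hP0 : 0 < P := by positivity
  set y : ℝ := Real.log P with hy
  have hy0 : 0 < y := by linarith
  have hl2 : Real.log 2 ≤ 1 := by
    have := Real.log_two_lt_d9
    linarith
  have h1 : lam * y - 1 ≤ Real.log (P ^ 3 * H) := by
    have h2 : Real.log (P ^ lam / 2) ≤ Real.log (P ^ 3 * H) :=
      Real.log_le_log (by positivity) hPH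
    rw [Real.log_div (by positivity) (by norm_num), Real.log_rpow hP0] at h2
    linarith
  have h2 : Real.log T ≤ y + 1 := by
    have h3 : Real.log T ≤ Real.log (2 * P) := Real.log_le_log (by linarith) hT2
    rw [Real.log_mul (by norm_num) hP0.ne'] at h3
    linarith
  have h3 : 0 < Real.log T := by
    have h4 : y ≤ Real.log T := Real.log_le_log hP0 hT1
    linarith
  have hpos : 0 < lam * y - 1 := by linarith
  have hlogy : 0 ≤ Real.log y := Real.log_nonneg g3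
  have hbr : 0 < 1 + C * (Real.log y / y) := by
    have : 0 ≤ C * (Real.log y / y) := by positivity
    linarith
  have h5 : gb C H P ≤ 4 * Real.pi / (lam * y - 1) * (1 + C * (Real.log y / y)) := by
    unfold gb
    apply mul_le_mul_of_nonneg_right _ hbr.le
    exact div_le_div_of_nonneg_left (by positivity) hpos h1
  have h6 : c * (2 * Real.pi / (y + 1)) ≤ c * (2 * Real.pi / Real.log T) :=
    mul_le_mul_of_nonneg_left (div_le_div_of_nonneg_left (by positivity) h3 h2) hc0.le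
  refine lt_of_le_of_lt h5 (lt_of_lt_of_le ?_ h6)
  have e3 : c * (2 * Real.pi / (y + 1)) = c * (2 * Real.pi) / (y + 1) := by ring
  have e4 : 4 * Real.pi / (lam * y - 1) * (1 + C * (Real.log y / y)) =
      4 * Real.pi * (1 + C * (Real.log y / y)) / (lam * y - 1) := by ring
  rw [e3, e4, div_lt_div_iff₀ hpos (by linarith)]
  have h7 : 2 * (1 + C * (Real.log y / y)) * (1 + 1 / y) * y < c * (lam - 1 / y) * y :=
    mul_lt_mul_of_pos_right g1 hy0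
  have h8 : 2 * (1 + C * (Real.log y / y)) * (1 + 1 / y) * y = 2 * (1 + C * (Real.log y / y)) * (y + 1) := by
    field_simp
  have h9 : c * (lam - 1 / y) * y = c * (lam * y - 1) := by
    field_simp
  rw [h8, h9] at h7
  have h10 := mul_lt_mul_of_pos_left h7 (show 0 < 2 * Real.pi by positivity)
  calc 4 * Real.pi * (1 + C * (Real.log y / y)) * (y + 1) =
        2 * Real.pi * (2 * (1 + C * (Real.log y / y)) * (y + 1)) := by ring
    _ < 2 * Real.pi * (c * (lam * y - 1)) := h10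
    _ = c * (2 * Real.pi) * (lam * y - 1) := by ring

/-- the general statement -/
theorem general {ν : ℕ → ℝ} {d A : ℝ} {B : ℕ} (hd : 0 < d) (hν : ∀ᶠ n : ℕ in atTop, (n : ℝ) ^ d ≤ ν n)
    (hBA0 : 0 < (B : ℝ) - A) (hBA : 1 < d * ((B : ℝ) - A)) (U : Set ℝ) (hU : U.Countable) (H : ℕ → ℝ)
    (hH : ∀ᶠ i : ℕ in atTop, Real.log (2 ^ i) ^ (B + 39) ≤ H i ∧ H i ≤ 2 ^ i ∧
      (i : ℝ) ^ A * H i ≤ 2 ^ i / (i : ℝ) ^ ((B : ℝ) - A)) :
    ∃ C : ℝ, 0 < C ∧ ∀ᵐ x : ℝ, 1 < x → ∀ β ∈ U, 0 < β → ∀ I : ℕ, ∀ᶠ n : ℕ in atTop, ∃ i : ℕ, I ≤ i ∧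
      (2 : ℝ) ^ i ≤ β * x ^ ν n ∧ β * x ^ ν n ≤ 2 ^ (i + 1) ∧
      ∀ a b : ℝ, β * x ^ ν n - (i : ℝ) ^ A * H i ≤ a → b ≤ β * x ^ ν n + (i : ℝ) ^ A * H i → 2 * H i ≤ b - a →
        ∃ m : ℕ, 1 ≤ m ∧ a ≤ ord m ∧ ord m ≤ ord (m + 1) ∧ ord (m + 1) ≤ b ∧
          ord (m + 1) - ord m ≤ gb C (H i) (2 ^ i) := by
  obtain ⟨C, T0, hC, hT0⟩ := AlmostAllIntervals.result.1 B
  refine ⟨C, hC, ?_⟩
  have hlim : Tendsto (fun i : ℕ => (2 : ℝ) ^ i) atTop atTop := tendsto_pow_atTop_atTop_of_one_lt (by norm_num)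
  obtain ⟨i₀, hi₀⟩ := (hH.and ((hlim.eventually_ge_atTop T0).and (eventually_ge_atTop 1))).exists_forall_of_atTop
  set i₁ : ℕ := max i₀ 1 with hi₁
  have hl2 : 0 < Real.log 2 := Real.log_pos (by norm_num)
  set Bad : ℕ → Set ℝ := fun i => {t : ℝ | ¬ ∃ n : ℕ, 1 ≤ n ∧ t ≤ ord n ∧ ord n ≤ ord (n + 1) ∧
    ord (n + 1) ≤ t + H i ∧ ord (n + 1) - ord n ≤ gb C (H i) (2 ^ i)} with hBad
  have hpos : ∀ i, i₁ ≤ i → 0 < H i := by
    intro i hi
    obtain ⟨⟨g1, -, -⟩, -, g2⟩ := hi₀ i ((le_max_left _ _).trans hi)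
    have h1 : 0 < Real.log ((2 : ℝ) ^ i) := Real.log_pos (one_lt_pow₀ (by norm_num) (by omega))
    exact lt_of_lt_of_le (by positivity) g1
  have hmain : ∀ I : ℕ, ∀ᵐ x : ℝ, 1 < x → ∀ β ∈ U, 0 < β → ∀ᶠ n : ℕ in atTop, ∃ i, max i₁ I ≤ i ∧
      (2 : ℝ) ^ i ≤ β * x ^ ν n - (i : ℝ) ^ A * H i ∧
      β * x ^ ν n + (i : ℝ) ^ A * H i ≤ 2 ^ (i + 1) ∧
      ∀ u : ℝ, β * x ^ ν n - (i : ℝ) ^ A * H i ≤ u → u + H i ≤ β * x ^ ν n + (i : ℝ) ^ A * H i →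
        ∃ t : ℝ, u ≤ t ∧ t ≤ u + H i ∧ t ∉ Bad i := by
    intro I
    refine ae_windows (C := (1 / Real.log 2) ^ B) hd hν (by positivity) hBA0 hBA U hU Bad H
      (fun i => (i : ℝ) ^ A * H i) (max i₁ I) ((le_max_right i₀ 1).trans (le_max_left _ _)) (fun i hi => ?_)
      (fun i hi => ?_)
    · have hi' : i₁ ≤ i := (le_max_left _ _).trans hi
      obtain ⟨⟨g1, g2, g3⟩, -, g4⟩ := hi₀ i ((le_max_left _ _).trans hi')
      have hi0 : (0 : ℝ) < i := by exact_mod_cast g4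
      exact ⟨hpos i hi', mul_pos (Real.rpow_pos_of_pos hi0 _) (hpos i hi'), le_rfl, g3⟩
    · have hi' : i₁ ≤ i := (le_max_left _ _).trans hi
      obtain ⟨⟨g1, g2, g3⟩, g5, g4⟩ := hi₀ i ((le_max_left _ _).trans hi')
      have hi0 : (0 : ℝ) < i := by exact_mod_cast g4
      refine (measure_mono ?_).trans ((hT0 (2 ^ i) (H i) g5 g1 g2).trans ?_)
      · rintro t ⟨ht1, ht2⟩
        rw [mem_Icc, pow_succ] at ht2
        exact ⟨ht2.1, by linarith [ht2.2], ht1⟩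
      · apply ENNReal.ofReal_le_ofReal
        rw [Real.log_pow, mul_pow, Real.rpow_natCast, div_pow, one_pow]
        apply le_of_eq
        field_simp
  rw [← ae_all_iff] at hmain
  filter_upwards [hmain] with x hx hx1 β hβ hβ0 I
  filter_upwards [hx I hx1 β hβ hβ0] with n hn
  obtain ⟨i, hi, h1, h2, h3⟩ := hn
  have hi' : i₁ ≤ i := (le_max_left _ _).trans hi
  have hHi := hpos i hi'
  have hi0 : (0 : ℝ) ≤ i := Nat.cast_nonneg i
  have hWi : 0 ≤ (i : ℝ) ^ A * H i := mul_nonneg (Real.rpow_nonneg hi0 _) hHi.le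
  refine ⟨i, (le_max_right _ _).trans hi, by linarith, by linarith, fun a b ha hb hab => ?_⟩
  obtain ⟨t, t1, t2, t3⟩ := h3 a ha (by linarith)
  have t4 : ∃ n : ℕ, 1 ≤ n ∧ t ≤ ord n ∧ ord n ≤ ord (n + 1) ∧
    ord (n + 1) ≤ t + H i ∧ ord (n + 1) - ord n ≤ gb C (H i) (2 ^ i) := not_not.1 t3
  obtain ⟨m, m1, m2, m3, m4, m5⟩ := t4
  exact ⟨m, m1, t1.trans m2, m3, by linarith, m5⟩

lemma logT (i : ℕ) (T : ℝ) (hi : 3 ≤ i) (h1 : (2 : ℝ) ^ i ≤ T) (h2 : T ≤ 2 ^ (i + 1)) :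
    (i : ℝ) * Real.log 2 ≤ Real.log T ∧ Real.log T ≤ ((i : ℝ) + 1) * Real.log 2 ∧ ((i : ℝ) + 1) * Real.log 2 ≤ i := by
  have hl21 : Real.log 2 < 0.7 := by
    have := Real.log_two_lt_d9
    linarith
  have hi3 : (3 : ℝ) ≤ i := by exact_mod_cast hi
  have hT0 : 0 < T := lt_of_lt_of_le (by positivity) h1
  refine ⟨?_, ?_, ?_⟩
  · rw [← Real.log_pow]
    exact Real.log_le_log (by positivity) h1
  · have : Real.log T ≤ Real.log ((2 : ℝ) ^ (i + 1)) := Real.log_le_log hT0 h2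
    rw [Real.log_pow] at this
    exact_mod_cast this
  · nlinarith

/-- powers of `i` against powers of `2 ^ i` -/
lemma hexp (q ε : ℝ) (hε : 0 < ε) : ∀ᶠ i : ℕ in atTop, (i : ℝ) ^ q ≤ ((2 : ℝ) ^ i) ^ ε := by
  have hl2 : 0 < Real.log 2 := Real.log_pos (by norm_num)
  have hnat : Tendsto (fun i : ℕ => (i : ℝ)) atTop atTop := tendsto_natCast_atTop_atTop
  have h1 : Tendsto (fun y : ℝ => y ^ q * Real.exp (-(ε * Real.log 2) * y)) atTop (𝓝 0) :=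
    tendsto_rpow_mul_exp_neg_mul_atTop_nhds_zero q (ε * Real.log 2) (by positivity)
  filter_upwards [(h1.comp hnat).eventually (gt_mem_nhds (show (0 : ℝ) < 1 by norm_num))] with i hi
  have hi' : (i : ℝ) ^ q * Real.exp (-(ε * Real.log 2) * i) < 1 := hi
  have e : ((2 : ℝ) ^ i) ^ ε = Real.exp ((ε * Real.log 2) * i) := by
    rw [Real.rpow_def_of_pos (by positivity), Real.log_pow]
    congr 1
    ring
  rw [e]
  have e2 : Real.exp (-(ε * Real.log 2) * i) = (Real.exp ((ε * Real.log 2) * i))⁻¹ := by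
    rw [← Real.exp_neg]
    congr 1
    ring
  rw [e2, ← div_eq_mul_inv, div_lt_one (Real.exp_pos _)] at hi'
  exact hi'.le

lemma ev1 (N : ℕ) (a q : ℝ) : ∀ᶠ i : ℕ in atTop, Real.log (2 ^ i) ^ N ≤ 2 ^ i ∧
    (i : ℝ) ^ a * Real.log (2 ^ i) ^ N ≤ 2 ^ i / (i : ℝ) ^ q := by
  have hl2 : 0 < Real.log 2 := Real.log_pos (by norm_num)
  have hl21 : Real.log 2 < 1 := by
    have := Real.log_two_lt_d9
    linarith
  filter_upwards [hexp (N : ℝ) 1 one_pos, hexp (a + N + q) 1 one_pos, eventually_ge_atTop 1] with i h1 h2 h3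
  have hi0 : (0 : ℝ) < i := by exact_mod_cast h3
  rw [Real.rpow_one] at h1 h2
  have hH : Real.log (2 ^ i) ^ N ≤ (i : ℝ) ^ (N : ℝ) := by
    rw [Real.log_pow, Real.rpow_natCast]
    apply pow_le_pow_left₀ (by positivity)
    nlinarith
  refine ⟨hH.trans h1, ?_⟩
  rw [le_div_iff₀ (Real.rpow_pos_of_pos hi0 _)]
  refine le_trans ?_ h2
  rw [Real.rpow_add hi0, Real.rpow_add hi0]
  exact mul_le_mul_of_nonneg_right (mul_le_mul_of_nonneg_left hH (by positivity)) (by positivity)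

lemma ev2 (N : ℕ) {θ : ℝ} (h0 : 0 < θ) (h1 : θ < 1) (a q : ℝ) : ∀ᶠ i : ℕ in atTop,
    Real.log (2 ^ i) ^ N ≤ ((2 : ℝ) ^ i) ^ θ / 2 ∧ ((2 : ℝ) ^ i) ^ θ / 2 ≤ 2 ^ i ∧
    (i : ℝ) ^ a * (((2 : ℝ) ^ i) ^ θ / 2) ≤ 2 ^ i / (i : ℝ) ^ q := by
  have hl2 : 0 < Real.log 2 := Real.log_pos (by norm_num)
  have hl21 : Real.log 2 < 1 := by
    have := Real.log_two_lt_d9
    linarith
  filter_upwards [hexp ((N : ℝ) + 1) θ h0, hexp (a + q) (1 - θ) (by linarith), eventually_ge_atTop 2] with i g1 g2 g3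
  have hi2 : (2 : ℝ) ≤ i := by exact_mod_cast g3
  have hi0 : (0 : ℝ) < i := by linarith
  have hP0 : (0 : ℝ) < 2 ^ i := by positivity
  have hP1 : (1 : ℝ) ≤ 2 ^ i := one_le_pow₀ (by norm_num)
  have hPθ0 : 0 < ((2 : ℝ) ^ i) ^ θ := Real.rpow_pos_of_pos hP0 _
  have hPθ : ((2 : ℝ) ^ i) ^ θ ≤ 2 ^ i := by
    calc ((2 : ℝ) ^ i) ^ θ ≤ ((2 : ℝ) ^ i) ^ (1 : ℝ) := Real.rpow_le_rpow_of_exponent_le hP1 h1.le
      _ = 2 ^ i := Real.rpow_one _
  refine ⟨?_, by linarith, ?_⟩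
  · have hH : Real.log (2 ^ i) ^ N ≤ (i : ℝ) ^ (N : ℝ) := by
      rw [Real.log_pow, Real.rpow_natCast]
      apply pow_le_pow_left₀ (by positivity)
      nlinarith
    rw [Real.rpow_add_one hi0.ne'] at g1
    have h2 : 0 ≤ (i : ℝ) ^ (N : ℝ) := Real.rpow_nonneg hi0.le _
    rw [le_div_iff₀ (by norm_num)]
    nlinarith
  · rw [le_div_iff₀ (Real.rpow_pos_of_pos hi0 _)]
    have e : (i : ℝ) ^ (a + q) = (i : ℝ) ^ a * (i : ℝ) ^ q := Real.rpow_add hi0 _ _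
    have h3 : (i : ℝ) ^ (a + q) * ((2 : ℝ) ^ i) ^ θ ≤ 2 ^ i := by
      calc (i : ℝ) ^ (a + q) * ((2 : ℝ) ^ i) ^ θ ≤ ((2 : ℝ) ^ i) ^ (1 - θ) * ((2 : ℝ) ^ i) ^ θ :=
            mul_le_mul_of_nonneg_right g2 hPθ0.le
        _ = 2 ^ i := by rw [← Real.rpow_add hP0, sub_add_cancel, Real.rpow_one]
    rw [e] at h3
    have h4 : (i : ℝ) ^ a * (((2 : ℝ) ^ i) ^ θ / 2) * (i : ℝ) ^ q = (i : ℝ) ^ a * (i : ℝ) ^ q * ((2 : ℝ) ^ i) ^ θ / 2 := by
      ring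
    rw [h4]
    linarith

lemma scale1 (N : ℕ) {A : ℝ} (hA : 0 ≤ A) (i : ℕ) (T : ℝ) (hi4 : 4 ≤ i) (hiN : 2 ^ N ≤ i) (h1 : (2 : ℝ) ^ i ≤ T)
    (h2 : T ≤ 2 ^ (i + 1)) :
    Real.log T ^ ((N : ℝ) + 1 + A) ≤ (i : ℝ) ^ (A + 2) * Real.log (2 ^ i) ^ N ∧
      2 * Real.log (2 ^ i) ^ N ≤ Real.log T ^ ((N : ℝ) + 1) ∧ 1 ≤ Real.log (2 ^ i) ^ N := by
  have hl22 : 1 / 2 < Real.log 2 := by
    have := Real.log_two_gt_d9
    linarith
  have hi4' : (4 : ℝ) ≤ i := by exact_mod_cast hi4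
  have hi0 : (0 : ℝ) < i := by linarith
  have hiN' : (2 : ℝ) ^ N ≤ i := by exact_mod_cast hiN
  obtain ⟨l1, l2, l3⟩ := logT i T (by omega) h1 h2
  have hlT0 : 0 < Real.log T := lt_of_lt_of_le (by positivity) l1
  have eH : Real.log (2 ^ i) ^ N = ((i : ℝ) * Real.log 2) ^ N := by rw [Real.log_pow]
  have hHpos : 0 < Real.log (2 ^ i) ^ N := by
    rw [eH]
    positivity
  refine ⟨?_, ?_, ?_⟩
  · have e1 : Real.log T ^ ((N : ℝ) + 1 + A) = Real.log T ^ (A + 1) * Real.log T ^ N := by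
      rw [← Real.rpow_natCast (Real.log T) N, ← Real.rpow_add hlT0]
      congr 1
      ring
    have e2 : Real.log T ^ (A + 1) ≤ (i : ℝ) ^ (A + 1) :=
      Real.rpow_le_rpow hlT0.le (l2.trans l3) (by linarith)
    have e3 : Real.log T ^ N ≤ i * Real.log (2 ^ i) ^ N := by
      calc Real.log T ^ N ≤ (2 * ((i : ℝ) * Real.log 2)) ^ N := by
            apply pow_le_pow_left₀ hlT0.le
            nlinarith
        _ = 2 ^ N * ((i : ℝ) * Real.log 2) ^ N := mul_pow _ _ _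
        _ ≤ i * Real.log (2 ^ i) ^ N := by
            rw [eH]
            exact mul_le_mul_of_nonneg_right hiN' (by positivity)
    rw [e1]
    calc Real.log T ^ (A + 1) * Real.log T ^ N ≤ (i : ℝ) ^ (A + 1) * (i * Real.log (2 ^ i) ^ N) :=
          mul_le_mul e2 e3 (by positivity) (by positivity)
      _ = (i : ℝ) ^ (A + 2) * Real.log (2 ^ i) ^ N := by
          have : (i : ℝ) ^ (A + 2) = (i : ℝ) ^ (A + 1) * i := by
            rw [show A + 2 = A + 1 + 1 by ring, Real.rpow_add_one hi0.ne']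
          rw [this]
          ring
  · rw [Real.rpow_add_one hlT0.ne', Real.rpow_natCast, eH]
    have e2 : ((i : ℝ) * Real.log 2) ^ N ≤ Real.log T ^ N := pow_le_pow_left₀ (by positivity) l1 _
    have e3 : 2 ≤ Real.log T := by nlinarith
    calc 2 * ((i : ℝ) * Real.log 2) ^ N ≤ 2 * Real.log T ^ N := by linarith
      _ ≤ Real.log T ^ N * Real.log T := by
          rw [mul_comm]
          exact mul_le_mul_of_nonneg_left e3 (by positivity)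
  · rw [eH]
    exact one_le_pow₀ (by nlinarith)

lemma scale2 {θ A : ℝ} (hθ0 : 0 < θ) (hθ1 : θ < 1) (hA : 0 ≤ A) (i : ℕ) (T : ℝ) (hi4 : 4 ≤ i)
    (h1 : (2 : ℝ) ^ i ≤ T) (h2 : T ≤ 2 ^ (i + 1)) :
    T ^ θ * Real.log T ^ A ≤ (i : ℝ) ^ (A + 1) * (((2 : ℝ) ^ i) ^ θ / 2) ∧
      2 * (((2 : ℝ) ^ i) ^ θ / 2) ≤ T ^ θ ∧
      ((2 : ℝ) ^ i) ^ (3 + θ) / 2 ≤ ((2 : ℝ) ^ i) ^ 3 * (((2 : ℝ) ^ i) ^ θ / 2) := by
  have hi4' : (4 : ℝ) ≤ i := by exact_mod_cast hi4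
  have hi0 : (0 : ℝ) < i := by linarith
  have hl2 : 0 < Real.log 2 := Real.log_pos (by norm_num)
  obtain ⟨l1, l2, l3⟩ := logT i T (by omega) h1 h2
  have hlT0 : 0 < Real.log T := lt_of_lt_of_le (by positivity) l1
  have hP0 : (0 : ℝ) < 2 ^ i := by positivity
  have hT0 : 0 < T := hP0.trans_le h1
  have h2' : T ≤ 2 * 2 ^ i := by
    rw [pow_succ] at h2
    linarith
  refine ⟨?_, ?_, ?_⟩
  · have e1 : T ^ θ ≤ 2 * ((2 : ℝ) ^ i) ^ θ := by
      calc T ^ θ ≤ (2 * 2 ^ i) ^ θ := Real.rpow_le_rpow hT0.le h2' hθ0.le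
        _ = 2 ^ θ * ((2 : ℝ) ^ i) ^ θ := Real.mul_rpow (by norm_num) hP0.le
        _ ≤ 2 * ((2 : ℝ) ^ i) ^ θ := by
            apply mul_le_mul_of_nonneg_right _ (by positivity)
            calc (2 : ℝ) ^ θ ≤ 2 ^ (1 : ℝ) := Real.rpow_le_rpow_of_exponent_le (by norm_num) hθ1.le
              _ = 2 := Real.rpow_one 2
    have e2 : Real.log T ^ A ≤ (i : ℝ) ^ A := Real.rpow_le_rpow hlT0.le (l2.trans l3) hA
    have e3 : (i : ℝ) ^ (A + 1) = (i : ℝ) ^ A * i := by rw [Real.rpow_add_one hi0.ne']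
    have e4 : 0 < ((2 : ℝ) ^ i) ^ θ := Real.rpow_pos_of_pos hP0 _
    have e5 : 0 < (i : ℝ) ^ A := Real.rpow_pos_of_pos hi0 _
    calc T ^ θ * Real.log T ^ A ≤ 2 * ((2 : ℝ) ^ i) ^ θ * (i : ℝ) ^ A :=
          mul_le_mul e1 e2 (by positivity) (by positivity)
      _ ≤ (i : ℝ) ^ (A + 1) * (((2 : ℝ) ^ i) ^ θ / 2) := by
          rw [e3]
          have e6 : 0 < ((2 : ℝ) ^ i) ^ θ * (i : ℝ) ^ A := mul_pos e4 e5
          nlinarith
  · rw [mul_div_cancel₀ _ (by norm_num : (2 : ℝ) ≠ 0)]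
    exact Real.rpow_le_rpow hP0.le h1 hθ0.le
  · have e5 : ((2 : ℝ) ^ i) ^ (3 + θ) = ((2 : ℝ) ^ i) ^ 3 * ((2 : ℝ) ^ i) ^ θ := by
      rw [Real.rpow_add hP0, ← Real.rpow_natCast ((2 : ℝ) ^ i) 3]
      norm_num
    rw [e5]
    linarith

theorem part1 {ν : ℕ → ℝ} {d : ℝ} (hd : 0 < d) (hν : ∀ᶠ n : ℕ in atTop, (n : ℝ) ^ d ≤ ν n) (U : Set ℝ)
    (hU : U.Countable) {A : ℝ} (hA : 0 ≤ A) :
    ∃ K : ℝ, 0 < K ∧ ∀ c : ℝ, 2 / 3 < c → ∀ᵐ x : ℝ, 1 < x → ∀ β ∈ U, 0 < β → ∀ᶠ n : ℕ in atTop,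
      ∀ T : ℝ, T = β * x ^ ν n → ∀ a b : ℝ, T - Real.log T ^ (K + A) ≤ a → b ≤ T + Real.log T ^ (K + A) →
        Real.log T ^ K ≤ b - a → SmallGap c T a b := by
  obtain ⟨B, hB⟩ := exists_nat_gt (A + 2 + 1 / d)
  have hBA : 1 / d < (B : ℝ) - (A + 2) := by linarith
  have hd1 : 0 < 1 / d := by positivity
  have hBA1 : 1 < d * ((B : ℝ) - (A + 2)) := by
    rw [div_lt_iff₀ hd] at hBA
    linarith
  obtain ⟨N, hN⟩ : ∃ N : ℕ, N = B + 39 := ⟨_, rfl⟩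
  refine ⟨(N : ℝ) + 1, by positivity, fun c hc => ?_⟩
  obtain ⟨C, hC, hmain⟩ := general (A := A + 2) (B := B) hd hν (by linarith) hBA1 U hU
    (fun i => Real.log (2 ^ i) ^ N) (by
      filter_upwards [ev1 N (A + 2) ((B : ℝ) - (A + 2))] with i hi
      exact ⟨by rw [hN], hi.1, hi.2⟩)
  obtain ⟨i₂, hi₂⟩ := gb_lt (lam := 3) (c := c) (C := C) (by norm_num)
    (by rw [div_lt_iff₀ (by norm_num)] at hc; linarith) hC.le
  filter_upwards [hmain] with x hx hx1 β hβ hβ0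
  filter_upwards [hx hx1 β hβ hβ0 (max i₂ (max 4 (2 ^ N)))] with n hn T hT a b ha hb hab
  obtain ⟨i, hi, h1, h2, h3⟩ := hn
  rw [← hT] at h1 h2 h3
  have hi₂' : i₂ ≤ i := (le_max_left _ _).trans hi
  have hi4 : 4 ≤ i := ((le_max_left _ _).trans (le_max_right _ _)).trans hi
  have hiN : 2 ^ N ≤ i := ((le_max_right _ _).trans (le_max_right _ _)).trans hi
  obtain ⟨s1, s2, s3⟩ := scale1 N hA i T hi4 hiN h1 h2
  obtain ⟨m, m1, m2, m3, m4, m5⟩ := h3 a b (by linarith) (by linarith) (s2.trans hab)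
  refine ⟨m, m1, m2, m3, m4, lt_of_le_of_lt m5 ?_⟩
  refine hi₂ i hi₂' _ T (by linarith) ?_ h1 (by rw [pow_succ] at h2; linarith)
  have e5 : ((2 : ℝ) ^ i) ^ (3 : ℝ) = ((2 : ℝ) ^ i) ^ 3 := by
    rw [← Real.rpow_natCast]
    norm_num
  rw [e5]
  have e7 : 0 < ((2 : ℝ) ^ i) ^ 3 := by positivity
  nlinarith

theorem part2 {ν : ℕ → ℝ} {d : ℝ} (hd : 0 < d) (hν : ∀ᶠ n : ℕ in atTop, (n : ℝ) ^ d ≤ ν n) (U : Set ℝ)
    (hU : U.Countable) {θ A c : ℝ} (hθ0 : 0 < θ) (hθ1 : θ < 1) (hA : 0 ≤ A) (hc : 2 / (3 + θ) < c) :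
    ∀ᵐ x : ℝ, 1 < x → ∀ β ∈ U, 0 < β → ∀ᶠ n : ℕ in atTop,
      ∀ T : ℝ, T = β * x ^ ν n → ∀ a b : ℝ, T - T ^ θ * Real.log T ^ A ≤ a → b ≤ T + T ^ θ * Real.log T ^ A →
        T ^ θ ≤ b - a → SmallGap c T a b := by
  obtain ⟨B, hB⟩ := exists_nat_gt (A + 1 + 1 / d)
  have hBA : 1 / d < (B : ℝ) - (A + 1) := by linarith
  have hd1 : 0 < 1 / d := by positivity
  have hBA1 : 1 < d * ((B : ℝ) - (A + 1)) := by
    rw [div_lt_iff₀ hd] at hBA
    linarith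
  obtain ⟨N, hN⟩ : ∃ N : ℕ, N = B + 39 := ⟨_, rfl⟩
  obtain ⟨C, hC, hmain⟩ := general (A := A + 1) (B := B) hd hν (by linarith) hBA1 U hU
    (fun i => ((2 : ℝ) ^ i) ^ θ / 2) (by
      filter_upwards [ev2 N hθ0 hθ1 (A + 1) ((B : ℝ) - (A + 1))] with i hi
      rw [hN] at hi
      exact hi)
  obtain ⟨i₂, hi₂⟩ := gb_lt (lam := 3 + θ) (c := c) (C := C) (by linarith)
    (by rw [div_lt_iff₀ (by linarith)] at hc; linarith) hC.le
  filter_upwards [hmain] with x hx hx1 β hβ hβ0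
  filter_upwards [hx hx1 β hβ hβ0 (max i₂ 4)] with n hn T hT a b ha hb hab
  obtain ⟨i, hi, h1, h2, h3⟩ := hn
  rw [← hT] at h1 h2 h3
  have hi₂' : i₂ ≤ i := (le_max_left _ _).trans hi
  have hi4 : 4 ≤ i := (le_max_right _ _).trans hi
  obtain ⟨s1, s2, s3⟩ := scale2 hθ0 hθ1 hA i T hi4 h1 h2
  obtain ⟨m, m1, m2, m3, m4, m5⟩ := h3 a b (by linarith) (by linarith) (s2.trans hab)
  refine ⟨m, m1, m2, m3, m4, lt_of_le_of_lt m5 ?_⟩
  exact hi₂ i hi₂' _ T (by positivity) s3 h1 (by rw [pow_succ] at h2; linarith)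

/-- **Theorem.** Unconditionally, let `ν n ≥ n ^ d` for large `n`, `d > 0`, and let `U` be countable. (1) For every `A ≥ 0`
there is `K > 0` such that for all `c > 2 / 3`, almost all `x > 1`, all positive `β` in `U` and all large `n`,
`T = β x ^ (ν n)`, every interval `[a, b]` of length at least `(log T) ^ K` in
`[T - (log T) ^ (K + A), T + (log T) ^ (K + A)]` contains two consecutive ordinates at a distance less than
`c (2 π / log T)`. (2) For all `0 < θ < 1`, `A ≥ 0` and `c > 2 / (3 + θ)`, almost all `x > 1`, all positive `β` in `U` and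
all large `n`, `T = β x ^ (ν n)`, every interval `[a, b]` of length at least `T ^ θ` in
`[T - T ^ θ (log T) ^ A, T + T ^ θ (log T) ^ A]` contains two consecutive ordinates at a distance less than
`c (2 π / log T)`. -/
theorem result (ν : ℕ → ℝ) (d : ℝ) (hd : 0 < d) (hν : ∀ᶠ n : ℕ in atTop, (n : ℝ) ^ d ≤ ν n) (U : Set ℝ)
    (hU : U.Countable) :
    (∀ A : ℝ, 0 ≤ A → ∃ K : ℝ, 0 < K ∧ ∀ c : ℝ, 2 / 3 < c → ∀ᵐ x : ℝ, 1 < x → ∀ β ∈ U, 0 < β → ∀ᶠ n : ℕ in atTop,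
      ∀ T : ℝ, T = β * x ^ ν n → ∀ a b : ℝ, T - Real.log T ^ (K + A) ≤ a → b ≤ T + Real.log T ^ (K + A) →
        Real.log T ^ K ≤ b - a → SmallGap c T a b) ∧
    (∀ θ A c : ℝ, 0 < θ → θ < 1 → 0 ≤ A → 2 / (3 + θ) < c → ∀ᵐ x : ℝ, 1 < x → ∀ β ∈ U, 0 < β → ∀ᶠ n : ℕ in atTop,
      ∀ T : ℝ, T = β * x ^ ν n → ∀ a b : ℝ, T - T ^ θ * Real.log T ^ A ≤ a → b ≤ T + T ^ θ * Real.log T ^ A →
        T ^ θ ≤ b - a → SmallGap c T a b) :=
  ⟨fun _ hA => part1 hd hν U hU hA, fun _ _ _ h0 h1 hA hc => part2 hd hν U hU h0 h1 hA hc⟩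

end Pool.Agent.Results.MP_ca0a54_nt.GapsNearPowers
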