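import Pool.Agent.TH299.PG.FinQ
import Pool.Agent.V1161.CM.KL
import Pool.Agent.V11270.HP.RealFK

/-!
# Patterns of small gaps between zeta zeros

No hypothesis is assumed.  Gaps below `9/16` of the mean spacing occur simultaneously near all the points of a copy
of any finite pattern: for every `k` there are `r` and `η > 0` such that for all large `T` and arbitrary real vectors
`g_1, …, g_r` in `ℝ^k` (with `∑ |g_i j| ≤ T`) there is a nonempty set `J` of indices for which the points `t` in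
`[T, 2T]` such that each of the `k + 1` windows of one mean spacing at `t` and at `t + ∑_{i ∈ J} g_i j` contains two
consecutive ordinates at a distance of less than `9/16` mean spacings have measure at least `η T`.

Proof.  The starting result `NineSixteenths` (a positive proportion of the gaps is that small), second moments of
the number of zeros in windows of the length of the mean spacing, which show that the good windows have positive
measure, and the density Hales-Jewett theorem (`V11270.HP.real_line`).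
-/

set_option autoImplicit false

open Filter Topology MeasureTheory

namespace Pool.Agent.Results.MP_ca0a54_nt.SmallGapPatterns

/-- multiplicity of `s` as a zero of the Riemann zeta function (order of vanishing at `s`) -/
noncomputable def zmult (s : ℂ) : ℕ := analyticOrderNatAt riemannZeta s

/-- the number of nontrivial zeros of `ζ` with ordinate in `(0, t]`, with multiplicity -/
noncomputable def NZ (t : ℝ) : ℕ :=
  ∑ᶠ s ∈ {s : ℂ | riemannZeta s = 0 ∧ 0 < s.re ∧ s.re < 1 ∧ 0 < s.im ∧ s.im ≤ t}, zmult s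

/-- for `n ≥ 1`: the `n`-th positive ordinate `γ_n` of a nontrivial zero of `ζ`, the ordinates
being listed in nondecreasing order and repeated according to multiplicity -/
noncomputable def ord (n : ℕ) : ℝ := sInf {t : ℝ | n ≤ NZ t}

/-- the window of one mean spacing `2π / log T` at the point `t` is in `[T, 2T]` and contains two consecutive
ordinates `γ_n, γ_(n+1)` at a distance of less than `9/16` mean spacings -/
def SmallGapAt (T t : ℝ) : Prop :=
  T ≤ t ∧ t + 2 * Real.pi / Real.log T ≤ 2 * T ∧ ∃ n : ℕ, 1 ≤ n ∧ t ≤ ord n ∧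
    ord (n + 1) ≤ t + 2 * Real.pi / Real.log T ∧
    ord (n + 1) - ord n < 9 / 16 * (2 * Real.pi / Real.log T)

open Pool.Agent.TH850.UV (NS mS mS_nonneg NS_nonneg NS_mono)
open Pool.Agent.V11270.KC (Z0 mem_Z0 Nice)
open Pool.Agent.V1161.CM (dl nn nn_moment nn_nonneg nn_nice)

lemma ord_eq (n : ℕ) : ord n = SG.ord n := rfl

lemma NZ_diff {a b : ℝ} (hab : a ≤ b) {U : ℝ} (hbU : b ≤ U) :
    ((SG.NZ b : ℝ) - SG.NZ a) = NS (Z0 U) (b - a) a := by
  classical
  have h1 : ∀ t : ℝ, t ≤ U → (SG.NZ t : ℝ) = ∑ s ∈ (Z0 U).filter (fun s => s.im ≤ t), mS s := by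
    intro t ht
    rw [SG.NZ_eq]
    push_cast
    refine Finset.sum_congr ?_ fun s _ => rfl
    ext s
    rw [Set.Finite.mem_toFinset, Finset.mem_filter, mem_Z0]
    unfold SG.ZS
    rw [Set.mem_ofPred_eq]
    constructor
    · rintro ⟨a1, a2, a3, a4, a5⟩
      exact ⟨⟨a2, a3, a4, a5.trans ht, a1⟩, a5⟩
    · rintro ⟨⟨a1, a2, a3, a4, a5⟩, a6⟩
      exact ⟨a5, a1, a2, a3, a6⟩
  rw [h1 b hbU, h1 a (hab.trans hbU), Finset.sum_filter, Finset.sum_filter,
    ← Finset.sum_sub_distrib]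
  unfold NS
  refine Finset.sum_congr rfl fun s _ => ?_
  by_cases h2 : s.im ≤ a
  · rw [if_pos (h2.trans hab), if_pos h2, if_neg (fun hc => absurd hc.1 (not_lt.2 h2))]
    ring
  · rw [if_neg h2]
    by_cases h3 : s.im ≤ b
    · rw [if_pos h3, if_pos ⟨not_le.1 h2, by linarith⟩]
      ring
    · rw [if_neg h3, if_neg (fun hc => h3 (by linarith [hc.2]))]
      ring

/-- the good windows have positive measure -/
lemma good_measure : ∃ (c T₀ : ℝ), 0 < c ∧ 10 ≤ T₀ ∧ ∀ T : ℝ, T₀ ≤ T → ∃ G : Set ℝ,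
    MeasurableSet G ∧ G ⊆ Set.Icc T (T + T) ∧ (∀ t ∈ G, SmallGapAt T t) ∧
      ENNReal.ofReal (c * T) ≤ volume G := by
  classical
  obtain ⟨κ, T1, hκ, h1⟩ := Pool.Agent.TH299.PG.pos_prop2 (9995 / 10000) (by norm_num)
  obtain ⟨C, T2, hC, hT2, h2⟩ := nn_moment 4 (by norm_num) 2 (by norm_num)
  have hpi := Real.pi_pos
  obtain ⟨a, ha⟩ : ∃ a : ℝ, a = 7 / 16 * (2 * Real.pi) * κ / 2 := ⟨_, rfl⟩
  have ha0 : 0 < a := by rw [ha]; positivity
  obtain ⟨lam, hlam⟩ : ∃ lam : ℝ, lam = a / (2 * C) := ⟨_, rfl⟩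
  have hlam0 : 0 < lam := by rw [hlam]; positivity
  have hev : ∀ᶠ T : ℝ in atTop, 2 * Real.pi ≤ Real.log T ∧ T ^ (9995 / 10000 : ℝ) ≤ T - 2 := by
    have e1 : ∀ᶠ T : ℝ in atTop, 2 * Real.pi ≤ Real.log T :=
      Real.tendsto_log_atTop.eventually_ge_atTop _
    have e2 : ∀ᶠ T : ℝ in atTop, (2 : ℝ) ≤ T ^ (5 / 10000 : ℝ) :=
      (tendsto_rpow_atTop (by norm_num)).eventually_ge_atTop _
    filter_upwards [e1, e2, eventually_ge_atTop 4] with T g1 g2 g3
    refine ⟨g1, ?_⟩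
    have hT0 : 0 < T := by linarith
    have g4 : T ^ (5 / 10000 : ℝ) * T ^ (9995 / 10000 : ℝ) = T := by
      rw [← Real.rpow_add hT0]
      norm_num
    have g5 : 0 ≤ T ^ (9995 / 10000 : ℝ) := Real.rpow_nonneg hT0.le _
    have g6 := mul_le_mul_of_nonneg_right g2 g5
    linarith
  obtain ⟨T3, hT3⟩ := eventually_atTop.1 hev
  refine ⟨lam * a, max (max T1 T2) (max T3 10), by positivity,
    (le_max_right _ _).trans (le_max_right _ _), fun T hT => ?_⟩
  have q1 : T1 ≤ T := ((le_max_left _ _).trans (le_max_left _ _)).trans hT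
  have q2 : T2 ≤ T := ((le_max_right _ _).trans (le_max_left _ _)).trans hT
  have q3 : T3 ≤ T := ((le_max_left _ _).trans (le_max_right _ _)).trans hT
  have hT10 : 10 ≤ T := ((le_max_right _ _).trans (le_max_right _ _)).trans hT
  obtain ⟨hlog, hpow⟩ := hT3 T q3
  have hL : 0 < Real.log T := by linarith
  obtain ⟨d, hd⟩ : ∃ d : ℝ, d = 2 * Real.pi / Real.log T := ⟨_, rfl⟩
  have hd0 : 0 < d := by rw [hd]; positivity
  have hd1 : d ≤ 1 := by
    rw [hd, div_le_one hL]
    exact hlog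
  -- the indices
  obtain ⟨F, hF⟩ : ∃ F : Finset ℕ, F = (Finset.range (SG.NZ (2 * T) + 1)).filter (fun n =>
    1 ≤ n ∧ T + 1 ≤ SG.ord n ∧ SG.ord (n + 1) ≤ T + 1 + (T - 2) ∧
      SG.ord (n + 1) - SG.ord n < 9 / 16 * d) := ⟨_, rfl⟩
  have hFcard : κ * (T - 2) * Real.log T ≤ F.card := by
    have g1 := h1 T (T + 1) (T - 2) q1 (by linarith) (by linarith) hpow
    rw [← hd] at g1
    refine g1.trans ?_
    rw [← Set.ncard_coe_finset]
    exact_mod_cast Set.ncard_le_ncard (by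
      rintro n ⟨b1, b2, b3, b4⟩
      rw [Finset.mem_coe, hF, Finset.mem_filter, Finset.mem_range]
      refine ⟨?_, b1, b2, b3, b4⟩
      have b5 := (SG.ord_le_iff (by omega : 1 ≤ n + 1) (T + 1 + (T - 2))).mp b3
      have b6 := SG.NZ_mono (show T + 1 + (T - 2) ≤ 2 * T by linarith)
      omega) (Finset.finite_toSet _)
  have hFm : ∀ n ∈ F, 1 ≤ n ∧ T + 1 ≤ SG.ord n ∧ SG.ord (n + 1) ≤ 2 * T - 1 ∧
      SG.ord (n + 1) - SG.ord n < 9 / 16 * d := by
    intro n hn
    rw [hF, Finset.mem_filter] at hn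
    exact ⟨hn.2.1, hn.2.2.1, by linarith [hn.2.2.2.1], hn.2.2.2.2⟩
  obtain ⟨G, hG⟩ : ∃ G : Set ℝ, G = ⋃ n ∈ F, Set.Icc (SG.ord (n + 1) - d) (SG.ord n) := ⟨_, rfl⟩
  have hGm : MeasurableSet G := by
    rw [hG]
    exact Finset.measurableSet_biUnion _ fun n _ => measurableSet_Icc
  have hmemG : ∀ t, t ∈ G ↔ ∃ n ∈ F, SG.ord (n + 1) - d ≤ t ∧ t ≤ SG.ord n := by
    intro t
    rw [hG, Set.mem_iUnion₂]
    constructor
    · rintro ⟨n, hn, h3, h4⟩
      exact ⟨n, hn, h3, h4⟩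
    · rintro ⟨n, hn, h3, h4⟩
      exact ⟨n, hn, h3, h4⟩
  have hGT : ∀ t ∈ G, T ≤ t ∧ t + d ≤ 2 * T := by
    intro t ht
    obtain ⟨n, hn, h3, h4⟩ := (hmemG t).1 ht
    obtain ⟨b1, b2, b3, b4⟩ := hFm n hn
    have hm := SG.ord_mono b1 (Nat.le_succ n)
    exact ⟨by linarith, by linarith⟩
  have hGs : G ⊆ Set.Icc T (T + T) := by
    intro t ht
    obtain ⟨h3, h4⟩ := hGT t ht
    exact ⟨h3, by linarith⟩
  have hGfin : volume G ≠ ⊤ := ((measure_mono hGs).trans_lt (by
    rw [Real.volume_Icc]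
    exact ENNReal.ofReal_lt_top)).ne
  refine ⟨G, hGm, hGs, fun t ht => ?_, ?_⟩
  · obtain ⟨n, hn, h3, h4⟩ := (hmemG t).1 ht
    obtain ⟨b1, b2, b3, b4⟩ := hFm n hn
    unfold SmallGapAt
    rw [← hd]
    exact ⟨(hGT t ht).1, (hGT t ht).2, n, b1, h4, by rw [ord_eq]; linarith, b4⟩
  -- the measure
  obtain ⟨Nf, hNf⟩ : ∃ Nf : ℝ → ℝ, Nf = fun t => nn (2 * T) 4 (t + (-d)) := ⟨_, rfl⟩
  have hNn : Nice Nf := by rw [hNf]; exact (nn_nice (2 * T) 4).comp _
  have hN2 : ∫ t, Nf t ^ 2 ≤ C * (2 * T) := by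
    have e := integral_add_right_eq_self (fun t => nn (2 * T) 4 t ^ 2) (-d) (μ := volume)
    rw [hNf]
    show ∫ t, nn (2 * T) 4 (t + -d) ^ 2 ≤ _
    rw [e]
    exact h2 (2 * T) (by linarith)
  have hwin : ∀ t : ℝ, T ≤ t → t + d ≤ 2 * T →
      (F.filter (fun n => SG.ord (n + 1) - d ≤ t ∧ t ≤ SG.ord n)).card ≤ Nf t := by
    intro t ht1 ht2
    have hsub : F.filter (fun n => SG.ord (n + 1) - d ≤ t ∧ t ≤ SG.ord n) ⊆
        Finset.Ioc (SG.NZ (t - d)) (SG.NZ (t + d)) := by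
      intro n hn
      rw [Finset.mem_filter] at hn
      obtain ⟨hn1, hn2, hn3⟩ := hn
      obtain ⟨b1, b2, b3, b4⟩ := hFm n hn1
      have hm := SG.ord_mono b1 (Nat.le_succ n)
      rw [Finset.mem_Ioc]
      constructor
      · by_contra hc
        have := (SG.ord_le_iff b1 (t - d)).mpr (not_lt.1 hc)
        linarith
      · exact (SG.ord_le_iff b1 (t + d)).mp (by
          have : SG.ord n ≤ SG.ord (n + 1) := hm
          linarith)
    have h3 := Finset.card_le_card hsub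
    rw [Nat.card_Ioc] at h3
    have h4 : SG.NZ (t - d) ≤ SG.NZ (t + d) := SG.NZ_mono (by linarith)
    have h5 : ((F.filter (fun n => SG.ord (n + 1) - d ≤ t ∧ t ≤ SG.ord n)).card : ℝ) ≤
        (SG.NZ (t + d) : ℝ) - SG.NZ (t - d) := by
      rw [← Nat.cast_sub h4]
      exact_mod_cast h3
    refine h5.trans ?_
    rw [NZ_diff (by linarith) ht2, hNf]
    show NS (Z0 (2 * T)) (t + d - (t - d)) (t - d) ≤ nn (2 * T) 4 (t + -d)
    unfold nn
    rw [← sub_eq_add_neg]
    refine NS_mono _ ?_ _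
    have e1 : t + d - (t - d) = 2 * d := by ring
    rw [e1, hd]
    unfold dl
    have h6 : Real.log (2 * T) ≤ 2 * Real.log T := by
      rw [← Real.log_rpow (by linarith)]
      refine Real.log_le_log (by linarith) ?_
      rw [Real.rpow_two]
      nlinarith
    have h7 : 0 < Real.log (2 * T) := Real.log_pos (by linarith)
    have e2 : 4 * (2 * Real.pi / Real.log (2 * T)) = 8 * Real.pi / Real.log (2 * T) := by ring
    have e3 : 2 * (2 * Real.pi / Real.log T) = 4 * Real.pi / Real.log T := by ring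
    rw [e2, e3, div_le_div_iff₀ hL h7]
    nlinarith
  have hsum : 7 / 16 * d * F.card ≤ lam / 2 * (C * (2 * T)) + 1 / (2 * lam) * (volume G).toReal := by
    have i1 : ∀ n : ℕ, Integrable
        ((Set.Icc (SG.ord (n + 1) - d) (SG.ord n)).indicator (fun _ => (1 : ℝ))) := fun n =>
      (integrable_indicator_iff measurableSet_Icc).2 (integrableOn_const (by
        rw [Real.volume_Icc]
        exact ENNReal.ofReal_ne_top))
    have i2 : Integrable (G.indicator (fun _ => (1 : ℝ))) :=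
      (integrable_indicator_iff hGm).2 (integrableOn_const hGfin)
    have i3 : Integrable fun t => Nf t ^ 2 := (hNn.pow (by norm_num : 1 ≤ 2)).integrable
    have g1 : 7 / 16 * d * F.card ≤ ∑ n ∈ F, ∫ t,
        (Set.Icc (SG.ord (n + 1) - d) (SG.ord n)).indicator (fun _ => (1 : ℝ)) t := by
      have g2 : ∀ n ∈ F, 7 / 16 * d ≤ ∫ t,
          (Set.Icc (SG.ord (n + 1) - d) (SG.ord n)).indicator (fun _ => (1 : ℝ)) t := by
        intro n hn
        obtain ⟨b1, b2, b3, b4⟩ := hFm n hn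
        rw [integral_indicator measurableSet_Icc, setIntegral_const, smul_eq_mul, mul_one,
          Real.volume_real_Icc_of_le (by linarith)]
        linarith
      have g3 := Finset.sum_le_sum g2
      rw [Finset.sum_const, nsmul_eq_mul] at g3
      linarith
    refine g1.trans ?_
    rw [← integral_finsetSum _ fun n _ => i1 n]
    have g4 : ∀ t, ∑ n ∈ F, (Set.Icc (SG.ord (n + 1) - d) (SG.ord n)).indicator
        (fun _ => (1 : ℝ)) t ≤ lam / 2 * Nf t ^ 2 + 1 / (2 * lam) * G.indicator (fun _ => 1) t := by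
      intro t
      have e1 : ∑ n ∈ F, (Set.Icc (SG.ord (n + 1) - d) (SG.ord n)).indicator
          (fun _ => (1 : ℝ)) t =
          (F.filter (fun n => SG.ord (n + 1) - d ≤ t ∧ t ≤ SG.ord n)).card := by
        rw [Finset.card_eq_sum_ones, Finset.sum_filter]
        push_cast
        refine Finset.sum_congr rfl fun n _ => ?_
        by_cases h3 : SG.ord (n + 1) - d ≤ t ∧ t ≤ SG.ord n
        · rw [if_pos h3, Set.indicator_of_mem (show t ∈ Set.Icc _ _ from h3)]
        · rw [if_neg h3, Set.indicator_of_notMem (show t ∉ Set.Icc _ _ from h3)]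
      rw [e1]
      by_cases ht : t ∈ G
      · rw [Set.indicator_of_mem ht, mul_one]
        obtain ⟨h3, h4⟩ := hGT t ht
        refine (hwin t h3 h4).trans ?_
        have h5 : lam / 2 * Nf t ^ 2 + 1 / (2 * lam) - Nf t = (lam * Nf t - 1) ^ 2 / (2 * lam) := by
          field_simp
          ring
        have h6 : 0 ≤ (lam * Nf t - 1) ^ 2 / (2 * lam) := by positivity
        linarith
      · rw [Set.indicator_of_notMem ht, mul_zero, add_zero]
        have e2 : F.filter (fun n => SG.ord (n + 1) - d ≤ t ∧ t ≤ SG.ord n) = ∅ := by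
          rw [Finset.filter_eq_empty_iff]
          intro n hn hc
          exact ht ((hmemG t).2 ⟨n, hn, hc.1, hc.2⟩)
        rw [e2, Finset.card_empty, Nat.cast_zero]
        positivity
    have g5 := integral_mono (integrable_finsetSum F fun n _ => i1 n)
      ((i3.const_mul (lam / 2)).add (i2.const_mul (1 / (2 * lam)))) g4
    refine g5.trans (le_of_eq_of_le (integral_add (i3.const_mul _) (i2.const_mul _)) ?_)
    rw [integral_const_mul, integral_const_mul, integral_indicator hGm, setIntegral_const,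
      smul_eq_mul, mul_one]
    have g6 := mul_le_mul_of_nonneg_left hN2 (show 0 ≤ lam / 2 by positivity)
    have g7 : volume.real G = (volume G).toReal := rfl
    rw [g7]
    linarith
  rw [← ENNReal.ofReal_toReal hGfin]
  refine ENNReal.ofReal_le_ofReal ?_
  obtain ⟨v, hv⟩ : ∃ v : ℝ, v = (volume G).toReal := ⟨_, rfl⟩
  rw [← hv] at hsum ⊢
  have k1 : a * T ≤ 7 / 16 * d * F.card := by
    have k2 := mul_le_mul_of_nonneg_left hFcard (show 0 ≤ 7 / 16 * d by positivity)
    refine le_trans ?_ k2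
    have k3 : 7 / 16 * d * (κ * (T - 2) * Real.log T) = 7 / 16 * (2 * Real.pi) * κ * (T - 2) := by
      rw [hd]
      field_simp
    rw [k3, ha]
    have k4 : 7 / 16 * (2 * Real.pi) * κ * (T - 2) - 7 / 16 * (2 * Real.pi) * κ / 2 * T =
        7 / 16 * (2 * Real.pi) * κ * (T / 2 - 2) := by ring
    have k5 : 0 ≤ 7 / 16 * (2 * Real.pi) * κ * (T / 2 - 2) := by
      have : 0 ≤ T / 2 - 2 := by linarith
      positivity
    linarith
  have k6 : lam / 2 * (C * (2 * T)) = a / 2 * T := by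
    rw [hlam]
    field_simp
  rw [k6] at hsum
  have k7 : a / 2 * T ≤ 1 / (2 * lam) * v := by linarith
  have k8 := mul_le_mul_of_nonneg_left k7 (show 0 ≤ 2 * lam by positivity)
  have k9 : 2 * lam * (1 / (2 * lam) * v) = v := by field_simp
  rw [k9] at k8
  linarith

/-- **Patterns of small gaps.** -/
theorem result :
    -- arbitrary vectors
    (∀ k : ℕ, ∃ (r : ℕ) (η T₀ : ℝ), 0 < η ∧ 10 ≤ T₀ ∧ ∀ T : ℝ, T₀ ≤ T →
      ∀ g : Fin r → Fin k → ℝ, (∀ j, ∑ i, |g i j| ≤ T) → ∃ J : Finset (Fin r), J.Nonempty ∧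
        ENNReal.ofReal (η * T) ≤
          volume {t : ℝ | SmallGapAt T t ∧ ∀ j, SmallGapAt T (t + ∑ i ∈ J, g i j)}) ∧
    -- homothetic copies
    (∀ k : ℕ, ∃ (r : ℕ) (η T₀ : ℝ), 0 < η ∧ 10 ≤ T₀ ∧ ∀ T : ℝ, T₀ ≤ T →
      ∀ b : Fin k → ℝ, (∀ j, r * |b j| ≤ T) → ∃ n : ℕ, 1 ≤ n ∧ n ≤ r ∧
        ENNReal.ofReal (η * T) ≤
          volume {t : ℝ | SmallGapAt T t ∧ ∀ j, SmallGapAt T (t + n * b j)}) := by
  classical
  obtain ⟨c, T1, hc, hT1, hgood⟩ := good_measure
  have main : ∀ k : ℕ, ∃ (r : ℕ) (η T₀ : ℝ), 0 < η ∧ 10 ≤ T₀ ∧ ∀ T : ℝ, T₀ ≤ T →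
      ∀ g : Fin r → Fin k → ℝ, (∀ j, ∑ i, |g i j| ≤ T) → ∃ J : Finset (Fin r), J.Nonempty ∧
        ENNReal.ofReal (η * T) ≤
          volume {t : ℝ | SmallGapAt T t ∧ ∀ j, SmallGapAt T (t + ∑ i ∈ J, g i j)} := by
    intro k
    obtain ⟨r, η, hη, hreal⟩ := V11270.HP.real_line k c hc
    refine ⟨r, η, T1, hη, hT1, fun T hT g hg => ?_⟩
    obtain ⟨G, hGm, hGs, hGg, hGv⟩ := hgood T hT
    obtain ⟨J, hJ, h1⟩ := hreal T (by linarith) T G hGm hGs hGv g hg
    refine ⟨J, hJ, h1.trans (measure_mono ?_)⟩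
    rintro t ⟨h2, h3⟩
    exact ⟨hGg t h2, fun j => hGg _ (h3 j)⟩
  refine ⟨main, fun k => ?_⟩
  obtain ⟨r, η, T₀, hη, hT₀, h⟩ := main k
  refine ⟨r, η, T₀, hη, hT₀, fun T hT b hb => ?_⟩
  obtain ⟨J, hJ, h1⟩ := h T hT (fun _ j => b j) (fun j => by
    rw [Finset.sum_const, Finset.card_univ, Fintype.card_fin, nsmul_eq_mul]
    exact hb j)
  refine ⟨J.card, Finset.card_pos.2 hJ, (Finset.card_le_univ J).trans (le_of_eq
    (Fintype.card_fin r)), ?_⟩
  refine h1.trans (measure_mono ?_)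
  rintro t ⟨h2, h3⟩
  refine ⟨h2, fun j => ?_⟩
  have h4 := h3 j
  rw [Finset.sum_const, nsmul_eq_mul] at h4
  exact h4

end Pool.Agent.Results.MP_ca0a54_nt.SmallGapPatterns
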