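import Pool.Agent.Results.MP_ca0a54_nt.AlmostAllIntervals
import Pool.Agent.V11285.W4

/-!
# Small gaps between zeta zeros at prescribed heights `α v_n`

Let `v_n` grow at least like `exp (n ^ δ)`, for example `v_n = b ^ n`. For almost all `α > 0` and all large `n` there are two
consecutive ordinates at a distance less than `c` times the mean spacing in the interval `[T, T + (log T) ^ D]`, for all
`c > 2 / 3`, and in the interval `[T, T + T ^ θ]`, for all `0 < θ < 1` and `c > 2 / (3 + θ)`, where `T = α v_n`. This is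
unconditional.
-/

set_option autoImplicit false

open Filter MeasureTheory Topology

namespace Pool.Agent.Results.MP_ca0a54_nt.WindowsOfHeights

open scoped ENNReal

/-- multiplicity of `s` as a zero of the Riemann zeta function (order of vanishing at `s`) -/
noncomputable def zmult (s : ℂ) : ℕ := analyticOrderNatAt riemannZeta s

/-- the number of nontrivial zeros of `ζ` with ordinate in `(0, t]`, with multiplicity -/
noncomputable def NZ (t : ℝ) : ℕ :=
  ∑ᶠ s ∈ {s : ℂ | riemannZeta s = 0 ∧ 0 < s.re ∧ s.re < 1 ∧ 0 < s.im ∧ s.im ≤ t}, zmult s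

/-- for `n ≥ 1`: the `n`-th positive ordinate of a nontrivial zero of `ζ`, the ordinates being
listed in nondecreasing order and repeated according to multiplicity -/
noncomputable def ord (n : ℕ) : ℝ := sInf {t : ℝ | n ≤ NZ t}

/-- `v_n` grows at least like `exp (n ^ δ)` for some `δ > 0` -/
def Fast (v : ℕ → ℝ) : Prop := ∃ δ : ℝ, 0 < δ ∧ ∀ᶠ n : ℕ in atTop, (n : ℝ) ^ δ ≤ Real.log (v n)

/-- there are two consecutive ordinates in `[T, T + H]` at a distance less than `c (2 π / log T)` -/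
def SmallGap (c H T : ℝ) : Prop :=
  ∃ m : ℕ, 1 ≤ m ∧ T ≤ ord m ∧ ord m ≤ ord (m + 1) ∧ ord (m + 1) ≤ T + H ∧
    ord (m + 1) - ord m < c * (2 * Real.pi / Real.log T)

/-- the gap bound -/
noncomputable def gb (C H T : ℝ) : ℝ :=
  4 * Real.pi / Real.log (T ^ 3 * H) * (1 + C * (Real.log (Real.log T) / Real.log T))

/-- the good heights of the starting theorem -/
def Good (C H T t : ℝ) : Prop := ∃ m : ℕ, 1 ≤ m ∧ t ≤ ord m ∧ ord m ≤ ord (m + 1) ∧ ord (m + 1) ≤ t + H ∧
  ord (m + 1) - ord m ≤ gb C H T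

/-- one dyadic range of `α` -/
theorem ae_range (C a : ℝ) (ha : 0 < a) (B P : ℕ) (Hf : ℝ → ℝ)
    (hvol : ∀ᶠ T : ℝ in atTop, volume {t : ℝ | T ≤ t ∧ t ≤ 2 * T ∧ ¬ Good C (Hf T) T t} ≤
      ENNReal.ofReal (T / Real.log T ^ B)) {v : ℕ → ℝ} (hv : ∀ n, 1 ≤ v n) (hf : Pool.Agent.V11285.W4.Fast v)
    (hP : ∀ᶠ n : ℕ in atTop, ((Real.log (v n)) ^ P)⁻¹ ≤ ((n : ℝ) ^ (2 : ℝ))⁻¹) (hPB : P ≤ B) :
    ∀ᵐ α : ℝ, a ≤ α → α ≤ 2 * a → ∀ᶠ n : ℕ in atTop, Good C (Hf (a * v n)) (a * v n) (α * v n) := by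
  have hvt : Tendsto v atTop atTop := hf.tendsto hv
  have hat : Tendsto (fun n => a * v n) atTop atTop := hvt.const_mul_atTop ha
  have hlogt : Tendsto (fun n => Real.log (v n)) atTop atTop := Real.tendsto_log_atTop.comp hvt
  set S : ℕ → Set ℝ := fun n => {α | a ≤ α ∧ α ≤ 2 * a ∧ ¬ Good C (Hf (a * v n)) (a * v n) (α * v n)} with hS
  -- the measure of the exceptional sets
  have hmeas : ∀ᶠ n : ℕ in atTop, volume (S n) ≤ ENNReal.ofReal ((a * 2 ^ B) * ((n : ℝ) ^ (2 : ℝ))⁻¹) := by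
    filter_upwards [hat.eventually hvol, hP, hlogt.eventually_ge_atTop (max 1 (2 * |Real.log a|))] with n h1 h2 h3
    have hv0 : 0 < v n := lt_of_lt_of_le one_pos (hv n)
    have hl1 : 1 ≤ Real.log (v n) := (le_max_left _ _).trans h3
    have hl2 : 2 * |Real.log a| ≤ Real.log (v n) := (le_max_right _ _).trans h3
    have hla : Real.log (v n) / 2 ≤ Real.log (a * v n) := by
      rw [Real.log_mul ha.ne' hv0.ne']
      have := neg_abs_le (Real.log a)
      linarith
    have hsub : S n ⊆ (fun α => α * v n) ⁻¹' {t : ℝ | a * v n ≤ t ∧ t ≤ 2 * (a * v n) ∧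
        ¬ Good C (Hf (a * v n)) (a * v n) t} := by
      rintro α ⟨g1, g2, g3⟩
      refine ⟨mul_le_mul_of_nonneg_right g1 hv0.le, ?_, g3⟩
      nlinarith
    calc volume (S n) ≤ volume ((fun α => α * v n) ⁻¹' {t : ℝ | a * v n ≤ t ∧ t ≤ 2 * (a * v n) ∧
          ¬ Good C (Hf (a * v n)) (a * v n) t}) := measure_mono hsub
      _ = ENNReal.ofReal |(v n)⁻¹| * volume {t : ℝ | a * v n ≤ t ∧ t ≤ 2 * (a * v n) ∧
          ¬ Good C (Hf (a * v n)) (a * v n) t} := Real.volume_preimage_mul_right hv0.ne' _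
      _ ≤ ENNReal.ofReal |(v n)⁻¹| * ENNReal.ofReal (a * v n / Real.log (a * v n) ^ B) :=
          mul_le_mul_right h1 _
      _ = ENNReal.ofReal (|(v n)⁻¹| * (a * v n / Real.log (a * v n) ^ B)) :=
          (ENNReal.ofReal_mul (abs_nonneg _)).symm
      _ ≤ ENNReal.ofReal ((a * 2 ^ B) * ((n : ℝ) ^ (2 : ℝ))⁻¹) := by
          apply ENNReal.ofReal_le_ofReal
          rw [abs_of_pos (inv_pos.2 hv0)]
          have h4 : (Real.log (a * v n) ^ B)⁻¹ ≤ 2 ^ B * (Real.log (v n) ^ P)⁻¹ := by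
            have h5 : (Real.log (v n) / 2) ^ B ≤ Real.log (a * v n) ^ B :=
              pow_le_pow_left₀ (by linarith) hla _
            have h6 : 0 < (Real.log (v n) / 2) ^ B := by positivity
            calc (Real.log (a * v n) ^ B)⁻¹ ≤ ((Real.log (v n) / 2) ^ B)⁻¹ := inv_anti₀ h6 h5
              _ = 2 ^ B * (Real.log (v n) ^ B)⁻¹ := by
                  rw [div_pow, inv_div]
                  rfl
              _ ≤ 2 ^ B * (Real.log (v n) ^ P)⁻¹ := by
                  apply mul_le_mul_of_nonneg_left _ (by positivity)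
                  exact inv_anti₀ (by positivity) (pow_le_pow_right₀ hl1 hPB)
          calc (v n)⁻¹ * (a * v n / Real.log (a * v n) ^ B) = a * (Real.log (a * v n) ^ B)⁻¹ := by
                field_simp
            _ ≤ a * (2 ^ B * (Real.log (v n) ^ P)⁻¹) := mul_le_mul_of_nonneg_left h4 ha.le
            _ ≤ a * (2 ^ B * ((n : ℝ) ^ (2 : ℝ))⁻¹) := by
                apply mul_le_mul_of_nonneg_left _ ha.le
                exact mul_le_mul_of_nonneg_left h2 (by positivity)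
            _ = (a * 2 ^ B) * ((n : ℝ) ^ (2 : ℝ))⁻¹ := by ring
  obtain ⟨n₁, hn₁⟩ := hmeas.exists_forall_of_atTop
  have hsum : Summable (fun n : ℕ => (a * 2 ^ B) * (((n + n₁ : ℕ) : ℝ) ^ (2 : ℝ))⁻¹) :=
    ((summable_nat_add_iff n₁).2 (Real.summable_nat_rpow_inv.2 (by norm_num : (1 : ℝ) < 2))).mul_left _
  have htsum : ∑' n : ℕ, volume (S (n + n₁)) ≠ ∞ := by
    refine ne_top_of_le_ne_top hsum.tsum_ofReal_ne_top (ENNReal.tsum_le_tsum fun n => ?_)
    exact hn₁ (n + n₁) (Nat.le_add_left _ _)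
  filter_upwards [ae_eventually_notMem htsum] with α hα h1 h2
  obtain ⟨n₂, hn₂⟩ := hα.exists_forall_of_atTop
  refine eventually_atTop.2 ⟨n₂ + n₁, fun n hn => ?_⟩
  have hn' := hn₂ (n - n₁) (by omega)
  rw [Nat.sub_add_cancel (by omega)] at hn'
  by_contra hcon
  exact hn' ⟨h1, h2, hcon⟩

/-- all `α` -/
theorem ae_all (C : ℝ) (B P : ℕ) (Hf : ℝ → ℝ)
    (hvol : ∀ᶠ T : ℝ in atTop, volume {t : ℝ | T ≤ t ∧ t ≤ 2 * T ∧ ¬ Good C (Hf T) T t} ≤
      ENNReal.ofReal (T / Real.log T ^ B)) {v : ℕ → ℝ} (hv : ∀ n, 1 ≤ v n) (hf : Pool.Agent.V11285.W4.Fast v)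
    (hP : ∀ᶠ n : ℕ in atTop, ((Real.log (v n)) ^ P)⁻¹ ≤ ((n : ℝ) ^ (2 : ℝ))⁻¹) (hPB : P ≤ B) :
    ∀ᵐ α : ℝ, 0 < α → ∃ a : ℝ, 0 < a ∧ a ≤ α ∧ α ≤ 2 * a ∧
      ∀ᶠ n : ℕ in atTop, Good C (Hf (a * v n)) (a * v n) (α * v n) := by
  have h := ae_all_iff.2 fun k : ℤ => ae_range C ((2 : ℝ) ^ k) (by positivity) B P Hf hvol hv hf hP hPB
  filter_upwards [h] with α hα hα0
  obtain ⟨k, hk1, hk2⟩ := exists_mem_Ico_zpow hα0 (one_lt_two : (1 : ℝ) < 2)
  have hk3 : α ≤ 2 * (2 : ℝ) ^ k := by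
    rw [zpow_add₀ (by norm_num), zpow_one] at hk2
    linarith
  exact ⟨(2 : ℝ) ^ k, by positivity, hk1, hk3, hα k hk1 hk3⟩

/-- the gap bound is less than `c` times the mean spacing -/
theorem gb_lt {θ c C : ℝ} (hθ : 0 ≤ θ) (hc : 2 / (3 + θ) < c) (hC : 0 < C) :
    ∀ᶠ T : ℝ in atTop, ∀ H t : ℝ, T ^ θ ≤ H → T ≤ t → t ≤ 2 * T → gb C H T < c * (2 * Real.pi / Real.log t) := by
  have hpi := Real.pi_pos
  have h1 : Tendsto (fun T : ℝ => Real.log (Real.log T) / Real.log T) atTop (𝓝 0) := by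
    have h2 : Tendsto (fun x : ℝ => Real.log x / x) atTop (𝓝 0) := by
      have := Real.isLittleO_log_id_atTop.tendsto_div_nhds_zero
      simpa using this
    exact h2.comp Real.tendsto_log_atTop
  have h3 : Tendsto (fun T : ℝ => Real.log 2 / Real.log T) atTop (𝓝 0) :=
    tendsto_const_nhds.div_atTop Real.tendsto_log_atTop
  have h4 : Tendsto (fun T : ℝ => 2 * (1 + C * (Real.log (Real.log T) / Real.log T)) *
      (1 + Real.log 2 / Real.log T)) atTop (𝓝 (2 * (1 + C * 0) * (1 + 0))) :=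
    (((h1.const_mul C).const_add 1).const_mul 2).mul (h3.const_add 1)
  have h5 : 2 * (1 + C * 0) * (1 + 0) < c * (3 + θ) := by
    rw [div_lt_iff₀ (by linarith)] at hc
    linarith
  filter_upwards [h4.eventually (gt_mem_nhds h5), eventually_ge_atTop (Real.exp 1)] with T g1 g2 H t hH ht1 ht2
  have hT0 : 0 < T := (Real.exp_pos 1).trans_le g2
  have hL : 1 ≤ Real.log T := by
    rw [Real.le_log_iff_exp_le hT0]
    exact g2
  have hL0 : 0 < Real.log T := by linarith
  have hll : 0 ≤ Real.log (Real.log T) / Real.log T := div_nonneg (Real.log_nonneg hL) hL0.le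
  have hlog : (3 + θ) * Real.log T ≤ Real.log (T ^ 3 * H) := by
    have h6 : T ^ (3 + θ) ≤ T ^ 3 * H := by
      rw [Real.rpow_add hT0]
      have h7 : T ^ (3 : ℝ) = T ^ 3 := by
        rw [← Real.rpow_natCast]
        norm_num
      rw [h7]
      exact mul_le_mul_of_nonneg_left hH (by positivity)
    rw [← Real.log_rpow hT0]
    exact Real.log_le_log (Real.rpow_pos_of_pos hT0 _) h6
  have ht0 : 0 < t := by linarith
  have hlt : Real.log t ≤ Real.log T + Real.log 2 := by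
    rw [← Real.log_mul hT0.ne' two_ne_zero]
    exact Real.log_le_log ht0 (by linarith)
  have hlt0 : 0 < Real.log t := by
    have := Real.log_le_log hT0 ht1
    linarith
  have hθ3 : 0 < 3 + θ := by linarith
  have hlogH : 0 < Real.log (T ^ 3 * H) := lt_of_lt_of_le (by positivity) hlog
  have hw : 0 ≤ 1 + C * (Real.log (Real.log T) / Real.log T) := by positivity
  unfold gb
  generalize 1 + C * (Real.log (Real.log T) / Real.log T) = W at hw g1 ⊢
  calc 4 * Real.pi / Real.log (T ^ 3 * H) * W ≤ 4 * Real.pi / ((3 + θ) * Real.log T) * W := by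
        apply mul_le_mul_of_nonneg_right _ hw
        exact div_le_div_of_nonneg_left (by positivity) (by positivity) hlog
    _ < c * (2 * Real.pi / (Real.log T + Real.log 2)) := by
        have hl2 : 0 < Real.log 2 := Real.log_pos (by norm_num)
        have e1 : 2 * W * (Real.log T + Real.log 2) < c * (3 + θ) * Real.log T := by
          have := mul_lt_mul_of_pos_right g1 hL0
          have e2 : 2 * W * (1 + Real.log 2 / Real.log T) * Real.log T = 2 * W * (Real.log T + Real.log 2) := by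
            field_simp
          linarith
        rw [div_mul_eq_mul_div, ← mul_div_assoc, div_lt_div_iff₀ (by positivity) (by positivity)]
        have := mul_lt_mul_of_pos_left e1 (show 0 < 2 * Real.pi by positivity)
        linarith
    _ ≤ c * (2 * Real.pi / Real.log t) := by
        have hc0 : 0 < c := lt_trans (by positivity) hc
        apply mul_le_mul_of_nonneg_left _ hc0.le
        exact div_le_div_of_nonneg_left (by positivity) hlt0 hlt

/-- **Small gaps at prescribed heights.** Let `v_n ≥ 1` grow at least like `exp (n ^ δ)` for some `δ > 0`.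

(1) There is `D` such that for almost all `α > 0`, for all `c > 2 / 3` and all large `n` there are two consecutive ordinates
of zeta zeros in `[T, T + (log T) ^ D]`, `T = α v_n`, at a distance less than `c (2 π / log T)`.

(2) For almost all `α > 0`, for all `0 < θ < 1`, all `c > 2 / (3 + θ)` and all large `n` there are two consecutive ordinates
in `[T, T + T ^ θ]`, `T = α v_n`, at a distance less than `c (2 π / log T)`.

An example is `v_n = b ^ n`, for all `b > 1`. -/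
theorem result :
    (∀ v : ℕ → ℝ, (∀ n, 1 ≤ v n) → Fast v →
      (∃ D : ℕ, ∀ᵐ α : ℝ, 0 < α → ∀ c : ℝ, 2 / 3 < c → ∃ n₀ : ℕ, ∀ n : ℕ, n₀ ≤ n →
        SmallGap c (Real.log (α * v n) ^ D) (α * v n)) ∧
      (∀ᵐ α : ℝ, 0 < α → ∀ θ c : ℝ, 0 < θ → θ < 1 → 2 / (3 + θ) < c → ∃ n₀ : ℕ, ∀ n : ℕ, n₀ ≤ n →
        SmallGap c ((α * v n) ^ θ) (α * v n))) ∧
    (∀ b : ℝ, 1 < b → Fast (fun n : ℕ => b ^ n)) := by
  refine ⟨fun v hv hf => ?_, fun b hb => Pool.Agent.V11285.W4.fast_geom b hb⟩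
  have hf' : Pool.Agent.V11285.W4.Fast v := hf
  obtain ⟨P, -, hP⟩ := hf'.summable
  have hvt : Tendsto v atTop atTop := hf'.tendsto hv
  obtain ⟨C, T₀, hC, h0⟩ := AlmostAllIntervals.result.1 P
  have hpow : ∀ θ : ℝ, 0 < θ → ∀ᶠ T : ℝ in atTop, Real.log T ^ (P + 39) ≤ T ^ θ := by
    intro θ hθ
    have h1 : (fun x : ℝ => Real.log x ^ (P + 39)) =o[atTop] (fun x : ℝ => x ^ θ) := by
      have := isLittleO_log_rpow_rpow_atTop (s := θ) ((P + 39 : ℕ) : ℝ) hθ
      simp only [Real.rpow_natCast] at this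
      exact this
    filter_upwards [h1.bound one_pos, eventually_ge_atTop 1] with T g1 g2
    rw [Real.norm_of_nonneg (pow_nonneg (Real.log_nonneg g2) _), Real.norm_of_nonneg (Real.rpow_nonneg (by linarith) _),
      one_mul] at g1
    exact g1
  have hmono : ∀ {c H H' T : ℝ}, SmallGap c H T → H ≤ H' → SmallGap c H' T := by
    rintro c H H' T ⟨m, h1, h2, h3, h4, h5⟩ hH
    exact ⟨m, h1, h2, h3, by linarith, h5⟩
  have hgood : ∀ {c θ H T t : ℝ}, Good C H T t → gb C H T < c * (2 * Real.pi / Real.log t) → SmallGap c H t := by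
    rintro c θ H T t ⟨m, h1, h2, h3, h4, h5⟩ hlt
    exact ⟨m, h1, h2, h3, h4, lt_of_le_of_lt h5 hlt⟩
  constructor
  · refine ⟨P + 39, ?_⟩
    have hvol : ∀ᶠ T : ℝ in atTop, volume {t : ℝ | T ≤ t ∧ t ≤ 2 * T ∧
        ¬ Good C ((fun T => Real.log T ^ (P + 39)) T) T t} ≤ ENNReal.ofReal (T / Real.log T ^ P) := by
      filter_upwards [eventually_ge_atTop T₀, hpow 1 one_pos] with T g1 g2
      rw [Real.rpow_one] at g2
      exact h0 T (Real.log T ^ (P + 39)) g1 le_rfl g2
    filter_upwards [ae_all C P P (fun T => Real.log T ^ (P + 39)) hvol hv hf' hP le_rfl] with α hα hα0 c hc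
    obtain ⟨a, ha, ha1, ha2, hev⟩ := hα hα0
    have hat : Tendsto (fun n => a * v n) atTop atTop := hvt.const_mul_atTop ha
    have hgb := gb_lt (θ := 0) (c := c) le_rfl (by simpa using hc) hC
    obtain ⟨n₀, hn₀⟩ := (hev.and ((hat.eventually hgb).and (hat.eventually_ge_atTop (Real.exp 1)))).exists_forall_of_atTop
    refine ⟨n₀, fun n hn => ?_⟩
    obtain ⟨g1, g2, g3⟩ := hn₀ n hn
    have hv0 : 0 < v n := lt_of_lt_of_le one_pos (hv n)
    have hT0 : 0 < a * v n := by positivity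
    have hL1 : 1 ≤ Real.log (a * v n) := by
      rw [Real.le_log_iff_exp_le hT0]
      exact g3
    have hTt : a * v n ≤ α * v n := mul_le_mul_of_nonneg_right ha1 hv0.le
    refine hmono (hgood (θ := 0) g1 (g2 _ _ ?_ hTt ?_)) ?_
    · rw [Real.rpow_zero]
      exact one_le_pow₀ hL1
    · nlinarith
    · exact pow_le_pow_left₀ (by linarith) (Real.log_le_log hT0 hTt) _
  · have hall : ∀ᵐ α : ℝ, ∀ q : ℚ, 0 < (q : ℝ) ∧ (q : ℝ) < 1 → 0 < α → ∃ a : ℝ, 0 < a ∧ a ≤ α ∧ α ≤ 2 * a ∧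
        ∀ᶠ n : ℕ in atTop, Good C ((a * v n) ^ (q : ℝ)) (a * v n) (α * v n) := by
      rw [ae_all_iff]
      intro q
      by_cases hq : 0 < (q : ℝ) ∧ (q : ℝ) < 1
      swap
      · exact Eventually.of_forall fun α h => absurd h hq
      have hvol : ∀ᶠ T : ℝ in atTop, volume {t : ℝ | T ≤ t ∧ t ≤ 2 * T ∧
          ¬ Good C ((fun T => T ^ (q : ℝ)) T) T t} ≤ ENNReal.ofReal (T / Real.log T ^ P) := by
        filter_upwards [eventually_ge_atTop T₀, hpow q hq.1, eventually_ge_atTop 1] with T g1 g2 g3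
        refine h0 T (T ^ (q : ℝ)) g1 g2 ?_
        calc T ^ (q : ℝ) ≤ T ^ (1 : ℝ) := Real.rpow_le_rpow_of_exponent_le g3 hq.2.le
          _ = T := Real.rpow_one T
      filter_upwards [ae_all C P P (fun T => T ^ (q : ℝ)) hvol hv hf' hP le_rfl] with α hα _ hα0
      exact hα hα0
    filter_upwards [hall] with α hα hα0 θ c hθ hθ1 hc
    -- a rational number `q < θ` with `2 / (3 + q) < c`
    have hc0 : 0 < c := lt_trans (by positivity) hc
    have hmax : max 0 (2 / c - 3) < θ := by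
      refine max_lt hθ ?_
      rw [div_lt_iff₀ (by linarith)] at hc
      rw [sub_lt_iff_lt_add, div_lt_iff₀ hc0]
      linarith
    obtain ⟨q, hq1, hq2⟩ := exists_rat_btwn hmax
    have hq0 : 0 < (q : ℝ) := lt_of_le_of_lt (le_max_left _ _) hq1
    have hqc : 2 / (3 + (q : ℝ)) < c := by
      have h1 : 2 / c - 3 < q := lt_of_le_of_lt (le_max_right _ _) hq1
      rw [sub_lt_iff_lt_add, div_lt_iff₀ hc0] at h1
      rw [div_lt_iff₀ (by linarith)]
      linarith
    obtain ⟨a, ha, ha1, ha2, hev⟩ := hα q ⟨hq0, hq2.trans hθ1⟩ hα0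
    have hat : Tendsto (fun n => a * v n) atTop atTop := hvt.const_mul_atTop ha
    have hgb := gb_lt (θ := (q : ℝ)) (c := c) hq0.le hqc hC
    obtain ⟨n₀, hn₀⟩ := (hev.and ((hat.eventually hgb).and (hat.eventually_ge_atTop 1))).exists_forall_of_atTop
    refine ⟨n₀, fun n hn => ?_⟩
    obtain ⟨g1, g2, g3⟩ := hn₀ n hn
    have hv0 : 0 < v n := lt_of_lt_of_le one_pos (hv n)
    have hTt : a * v n ≤ α * v n := mul_le_mul_of_nonneg_right ha1 hv0.le
    refine hmono (hgood (θ := 0) g1 (g2 _ _ le_rfl hTt ?_)) ?_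
    · nlinarith
    · calc (a * v n) ^ (q : ℝ) ≤ (α * v n) ^ (q : ℝ) := Real.rpow_le_rpow (by linarith) hTt hq0.le
        _ ≤ (α * v n) ^ θ := Real.rpow_le_rpow_of_exponent_le (g3.trans hTt) hq2.le

end Pool.Agent.Results.MP_ca0a54_nt.WindowsOfHeights
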